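import Pool.Agent.P.MP_535d4d_lc.Bridge

namespace Pool.Agent.Results.MP_535d4d_lc.NoCover

open Pool.Agent.P.MP_535d4d_lc

/-- There is a Turing degree that is not c.e., is `n`-c.e. for every `n ≥ 2`, and has no cover
among the `n`-c.e. degrees for any `n ≥ 2`. -/
theorem result :
    ∃ a : TuringDegree, a ∉ NCEDegrees 1 ∧ ∀ n : ℕ, 2 ≤ n → a ∈ NCEDegrees n ∧
      ∀ b ∈ NCEDegrees n, a < b → ∃ c ∈ NCEDegrees n, a < c ∧ c < b :=
  main_deg

end Pool.Agent.Results.MP_535d4d_lc.NoCover
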